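import Pool.Agent.H673.PR.Stm

/-!
# The grid lemma (PR-1 of MP_aad70b_co, project of helper673)
-/

set_option autoImplicit false

open Finset

namespace Pool.Agent.H673.PR

namespace PL

open Classical in
/-- indicator -/
noncomputable def be (P : Prop) : ℤ := if P then 1 else 0

theorem be_t {P : Prop} (h : P) : be P = 1 := if_pos h
theorem be_f {P : Prop} (h : ¬ P) : be P = 0 := if_neg h
theorem be_nonneg (P : Prop) : 0 ≤ be P := by unfold be; split_ifs <;> norm_num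
theorem be_congr {P Q : Prop} (h : P ↔ Q) : be P = be Q := by rw [propext h]

theorem sum_be {α : Type} (s : Finset α) (p : α → Prop) [DecidablePred p] :
    ∑ x ∈ s, be (p x) = ((s.filter p).card : ℤ) := by
  rw [Finset.card_filter]
  push_cast
  apply sum_congr rfl
  intro x _
  by_cases h : p x
  · rw [be_t h, if_pos h]
  · rw [be_f h, if_neg h]

/-- the number needed at a vertex -/
noncomputable def need (B : ℤ → ℤ → Prop) (x y : ℤ) : ℤ :=
  be (B (x - 1) (y - 1) ∧ B x (y - 1)) + be (B (x - 1) y ∧ B x y) +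
    be (B (x - 1) (y - 1) ∧ B (x - 1) y) + be (B x (y - 1) ∧ B x y) -
    2 * be ((B (x - 1) (y - 1) ∧ B (x - 1) y) ∧ (B x (y - 1) ∧ B x y))

/-! ### sums -/

theorem sum_range_int (m : ℕ) (f : ℤ → ℤ) : ∑ i ∈ range m, f i = ∑ x ∈ Ico (0 : ℤ) m, f x := by
  apply sum_nbij' (fun i : ℕ => (i : ℤ)) (fun x : ℤ => x.toNat)
  · intro i hi
    rw [mem_range] at hi
    rw [mem_Ico]
    omega
  · intro x hx
    rw [mem_Ico] at hx
    rw [mem_range]
    omega
  · intro i _
    simp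
  · intro x hx
    rw [mem_Ico] at hx
    exact Int.toNat_of_nonneg hx.1
  · intro i _
    rfl

theorem sum_shift (n : ℕ) (f : ℤ → ℤ) (h1 : f (-1) = 0) (h2 : f n = 0) :
    ∑ x ∈ Icc (0 : ℤ) n, f (x - 1) = ∑ x ∈ Icc (0 : ℤ) n, f x := by
  have e1 : ∑ x ∈ Icc (0 : ℤ) n, f (x - 1) = ∑ x ∈ Icc (-1 : ℤ) (n - 1), f x := by
    apply sum_nbij' (fun x : ℤ => x - 1) (fun x : ℤ => x + 1)
    · intro x hx; rw [mem_Icc] at hx ⊢; omega
    · intro x hx; rw [mem_Icc] at hx ⊢; omega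
    · intro x _; ring
    · intro x _; ring
    · intro x _; rfl
  have e2 : ∑ x ∈ Icc (-1 : ℤ) (n - 1), f x = ∑ x ∈ Icc (-1 : ℤ) n, f x := by
    apply sum_subset
    · intro x hx; rw [mem_Icc] at hx ⊢; omega
    · intro x hx hx'
      rw [mem_Icc] at hx hx'
      have : x = n := by omega
      rw [this, h2]
  have e3 : ∑ x ∈ Icc (0 : ℤ) n, f x = ∑ x ∈ Icc (-1 : ℤ) n, f x := by
    apply sum_subset
    · intro x hx; rw [mem_Icc] at hx ⊢; omega
    · intro x hx hx'
      rw [mem_Icc] at hx hx'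
      have : x = -1 := by omega
      rw [this, h1]
  rw [e1, e2, e3]

theorem interval_sum (n : ℕ) (P : ℤ → Prop) (hr : ∀ i, P i → 0 ≤ i ∧ i < n)
    (hc : ∀ i j k, P i → P k → i ≤ j → j ≤ k → P j) :
    ∑ x ∈ Icc (0 : ℤ) n, be (P (x - 1) ∧ P x) = ∑ x ∈ Icc (0 : ℤ) n, be (P x) - be (∃ i, P i) := by
  have e1 : ∀ x, be (P (x - 1) ∧ P x) = be (P x) - be (P x ∧ ¬ P (x - 1)) := by
    intro x
    by_cases h1 : P x <;> by_cases h2 : P (x - 1)
    · rw [be_t ⟨h2, h1⟩, be_t h1, be_f (fun h => h.2 h2)]; norm_num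
    · rw [be_f (fun h => h2 h.1), be_t h1, be_t ⟨h1, h2⟩]; norm_num
    · rw [be_f (fun h => h1 h.2), be_f h1, be_f (fun h => h1 h.1)]; norm_num
    · rw [be_f (fun h => h1 h.2), be_f h1, be_f (fun h => h1 h.1)]; norm_num
  rw [sum_congr rfl fun x _ => e1 x, sum_sub_distrib]
  congr 1
  by_cases hE : ∃ i, P i
  · rw [be_t hE]
    obtain ⟨m, hm, hmin⟩ := Int.exists_least_of_bdd (P := P) ⟨0, fun z hz => (hr z hz).1⟩ hE
    rw [sum_eq_single m]
    · rw [be_t]
      refine ⟨hm, fun h => ?_⟩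
      have := hmin _ h
      omega
    · intro x _ hx
      rw [be_f]
      rintro ⟨h1, h2⟩
      apply h2
      have := hmin x h1
      exact hc m (x - 1) x hm h1 (by omega) (by omega)
    · intro h
      exfalso
      apply h
      rw [mem_Icc]
      have := hr m hm
      omega
  · rw [be_f hE]
    apply sum_eq_zero
    intro x _
    rw [be_f]
    rintro ⟨h1, -⟩
    exact hE ⟨x, h1⟩

section

variable {n : ℕ} {B G : ℤ → ℤ → Prop} {W : ℤ → ℤ → ℕ}

/-- sum over a row of vertices -/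
theorem row_need (h : Poly n B G W) (y : ℤ) :
    ∑ x ∈ Icc (0 : ℤ) n, need B x y =
      (∑ x ∈ Icc (0 : ℤ) n, be (B x (y - 1)) - be (∃ i, B i (y - 1))) +
      (∑ x ∈ Icc (0 : ℤ) n, be (B x y) - be (∃ i, B i y)) +
      2 * be (∃ i, B i (y - 1) ∧ B i y) := by
  have h1 := interval_sum n (fun x => B x (y - 1)) (fun i hi => ⟨(h.rng i _ hi).1, (h.rng i _ hi).2.1⟩)
    (fun i j k hi hk hij hjk => h.row i j k _ hi hk hij hjk)
  have h2 := interval_sum n (fun x => B x y) (fun i hi => ⟨(h.rng i _ hi).1, (h.rng i _ hi).2.1⟩)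
    (fun i j k hi hk hij hjk => h.row i j k _ hi hk hij hjk)
  have h3 := interval_sum n (fun x => B x (y - 1) ∧ B x y)
    (fun i hi => ⟨(h.rng i _ hi.1).1, (h.rng i _ hi.1).2.1⟩)
    (fun i j k hi hk hij hjk => ⟨h.row i j k _ hi.1 hk.1 hij hjk, h.row i j k _ hi.2 hk.2 hij hjk⟩)
  have h4 := sum_shift n (fun x => be (B x (y - 1) ∧ B x y))
    (be_f (fun hc => by have := (h.rng _ _ hc.1).1; omega))
    (be_f (fun hc => by have := (h.rng _ _ hc.1).2.1; omega))
  unfold need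
  rw [sum_sub_distrib, sum_add_distrib, sum_add_distrib, sum_add_distrib, ← mul_sum, h1, h2, h3, h4]
  ring

theorem total_need (h : Poly n B G W) :
    ∑ y ∈ Icc (0 : ℤ) n, ∑ x ∈ Icc (0 : ℤ) n, need B x y =
      2 * ∑ y ∈ Icc (0 : ℤ) n, ∑ x ∈ Icc (0 : ℤ) n, be (B x y) -
      2 * ∑ y ∈ Icc (0 : ℤ) n, be (∃ i, B i y) +
      2 * ∑ y ∈ Icc (0 : ℤ) n, be (∃ i, B i (y - 1) ∧ B i y) := by
  rw [sum_congr rfl fun y _ => row_need h y]
  rw [sum_add_distrib, sum_add_distrib, sum_sub_distrib, sum_sub_distrib, ← mul_sum]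
  have h1 := sum_shift n (fun y => ∑ x ∈ Icc (0 : ℤ) n, be (B x y))
    (sum_eq_zero fun x _ => be_f fun hc => by have := (h.rng _ _ hc).2.2.1; omega)
    (sum_eq_zero fun x _ => be_f fun hc => by have := (h.rng _ _ hc).2.2.2; omega)
  have h2 := sum_shift n (fun y => be (∃ i, B i y))
    (be_f fun ⟨i, hc⟩ => by have := (h.rng _ _ hc).2.2.1; omega)
    (be_f fun ⟨i, hc⟩ => by have := (h.rng _ _ hc).2.2.2; omega)
  rw [h1, h2]
  ring

/-- `need` is at most `W` -/
theorem need_le (h : Poly n B G W) (x y : ℤ) : need B x y ≤ W x y := by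
  have key : ∀ (b1 b2 b3 b4 : Prop), b1 = B (x - 1) (y - 1) → b2 = B x (y - 1) → b3 = B (x - 1) y →
      b4 = B x y → need B x y ≤ W x y := by
    intro b1 b2 b3 b4 e1 e2 e3 e4
    -- the four kinds of adjacent pairs
    have hb : B (x - 1) (y - 1) ∧ B x (y - 1) → G x y ∧ 1 ≤ x ∧ x < n ∧ 0 ≤ y ∧ y ≤ n := by
      rintro ⟨h1, h2⟩
      have r1 := h.rng _ _ h1
      have r2 := h.rng _ _ h2
      have := (h.eh (x - 1) (y - 1) h1 (by rwa [sub_add_cancel])).2
      rw [sub_add_cancel, sub_add_cancel] at this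
      exact ⟨this, by omega, by omega, by omega, by omega⟩
    have ht : B (x - 1) y ∧ B x y → G x y ∧ 1 ≤ x ∧ x < n ∧ 0 ≤ y ∧ y ≤ n := by
      rintro ⟨h1, h2⟩
      have r1 := h.rng _ _ h1
      have r2 := h.rng _ _ h2
      have := (h.eh (x - 1) y h1 (by rwa [sub_add_cancel])).1
      rw [sub_add_cancel] at this
      exact ⟨this, by omega, by omega, by omega, by omega⟩
    have hl : B (x - 1) (y - 1) ∧ B (x - 1) y → G x y ∧ 0 ≤ x ∧ x ≤ n ∧ 1 ≤ y ∧ y < n := by
      rintro ⟨h1, h2⟩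
      have r1 := h.rng _ _ h1
      have r2 := h.rng _ _ h2
      have := (h.ev (x - 1) (y - 1) h1 (by rwa [sub_add_cancel])).2
      rw [sub_add_cancel, sub_add_cancel] at this
      exact ⟨this, by omega, by omega, by omega, by omega⟩
    have hr : B x (y - 1) ∧ B x y → G x y ∧ 0 ≤ x ∧ x ≤ n ∧ 1 ≤ y ∧ y < n := by
      rintro ⟨h1, h2⟩
      have r1 := h.rng _ _ h1
      have r2 := h.rng _ _ h2
      have := (h.ev x (y - 1) h1 (by rwa [sub_add_cancel])).1
      rw [sub_add_cancel] at this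
      exact ⟨this, by omega, by omega, by omega, by omega⟩
    have w1 : ∀ (g : G x y), (1 ≤ x ∧ x < n ∧ 0 ≤ y ∧ y ≤ n) → (1 : ℤ) ≤ W x y := by
      rintro g ⟨a1, a2, a3, a4⟩
      exact_mod_cast h.wt1x x y g a1 a2 a3 a4
    have w1' : ∀ (g : G x y), (0 ≤ x ∧ x ≤ n ∧ 1 ≤ y ∧ y < n) → (1 : ℤ) ≤ W x y := by
      rintro g ⟨a1, a2, a3, a4⟩
      exact_mod_cast h.wt1y x y g a1 a2 a3 a4
    have w2 : ∀ (g : G x y), (1 ≤ x ∧ x < n ∧ 1 ≤ y ∧ y < n) → (2 : ℤ) ≤ W x y := by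
      rintro g ⟨a1, a2, a3, a4⟩
      exact_mod_cast h.wt2 x y g a1 a2 a3 a4
    have hW0 : (0 : ℤ) ≤ W x y := Int.natCast_nonneg _
    unfold need
    by_cases h1 : B (x - 1) (y - 1) <;> by_cases h2 : B x (y - 1) <;>
      by_cases h3 : B (x - 1) y <;> by_cases h4 : B x y <;>
      simp only [h1, h2, h3, h4, and_self, and_true, and_false, be_t trivial,
        be_f not_false]
    · have a := hb ⟨h1, h2⟩; have b := hl ⟨h1, h3⟩
      have := w2 a.1 ⟨a.2.1, a.2.2.1, b.2.2.2.1, b.2.2.2.2⟩; omega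
    · have a := hb ⟨h1, h2⟩; have b := hl ⟨h1, h3⟩
      have := w2 a.1 ⟨a.2.1, a.2.2.1, b.2.2.2.1, b.2.2.2.2⟩; omega
    · have a := hb ⟨h1, h2⟩; have b := hr ⟨h2, h4⟩
      have := w2 a.1 ⟨a.2.1, a.2.2.1, b.2.2.2.1, b.2.2.2.2⟩; omega
    · have a := hb ⟨h1, h2⟩
      have := w1 a.1 a.2; omega
    · have a := ht ⟨h3, h4⟩; have b := hl ⟨h1, h3⟩
      have := w2 a.1 ⟨a.2.1, a.2.2.1, b.2.2.2.1, b.2.2.2.2⟩; omega
    · have b := hl ⟨h1, h3⟩
      have := w1' b.1 b.2; omega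
    · omega
    · omega
    · have a := ht ⟨h3, h4⟩; have b := hr ⟨h2, h4⟩
      have := w2 a.1 ⟨a.2.1, a.2.2.1, b.2.2.2.1, b.2.2.2.2⟩; omega
    · omega
    · have b := hr ⟨h2, h4⟩
      have := w1' b.1 b.2; omega
    · omega
    · have a := ht ⟨h3, h4⟩
      have := w1 a.1 a.2; omega
    · omega
    · omega
    · omega
  exact key _ _ _ _ rfl rfl rfl rfl

/-! ### payments -/

/-- the vertex `(x, y)` can pay for the lower side of the row `j` -/
def PB (n : ℕ) (B : ℤ → ℤ → Prop) (W : ℤ → ℤ → ℕ) (j x y : ℤ) : Prop :=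
  (0 ≤ x ∧ x ≤ n ∧ 0 ≤ y ∧ y ≤ n) ∧ need B x y + 1 ≤ W x y ∧
  ((y = j ∧ need B x y = 0 ∧ 2 ≤ W x y) ∨
   (y = j ∧ need B x y = 1 ∧ B (x - 1) j ∧ B x j) ∨
   (y = j + 1 ∧ need B x y = 1 ∧ ∃ i, B i j ∧ B i (j + 1) ∧ (∀ i', B i' j → i' = i) ∧
      ∀ i' j', j < j' → B i' j' → i' = i) ∨
   ((y = j ∨ y = j + 1) ∧ need B x y = 0 ∧ (∀ i' j', j < j' → ¬ B i' j') ∧
      ∃ i, B i j ∧ (x = i ∨ x = i + 1) ∧
        (((∀ i' j', j' < j → B i' j' → i' < i) ∧ ¬ (x = i ∧ y = j)) ∨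
         ((∀ i' j', j' < j → B i' j' → i < i') ∧ ¬ (x = i + 1 ∧ y = j)))))

/-- the vertex `(x, y)` can pay for the upper side of the row `j` -/
def PT (n : ℕ) (B : ℤ → ℤ → Prop) (W : ℤ → ℤ → ℕ) (j x y : ℤ) : Prop :=
  (0 ≤ x ∧ x ≤ n ∧ 0 ≤ y ∧ y ≤ n) ∧ need B x y + 1 ≤ W x y ∧
  ((y = j + 1 ∧ need B x y = 0 ∧ 2 ≤ W x y) ∨
   (y = j + 1 ∧ need B x y = 1 ∧ B (x - 1) j ∧ B x j) ∨
   (y = j ∧ need B x y = 1 ∧ ∃ i, B i j ∧ B i (j - 1) ∧ (∀ i', B i' j → i' = i) ∧
      ∀ i' j', j' < j → B i' j' → i' = i) ∨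
   ((y = j + 1 ∨ y = j) ∧ need B x y = 0 ∧ (∀ i' j', j' < j → ¬ B i' j') ∧
      ∃ i, B i j ∧ (x = i ∨ x = i + 1) ∧
        (((∀ i' j', j < j' → B i' j' → i' < i) ∧ ¬ (x = i ∧ y = j + 1)) ∨
         ((∀ i' j', j < j' → B i' j' → i < i') ∧ ¬ (x = i + 1 ∧ y = j + 1)))))

/-- no adjacent marked cells at the vertex -/
theorem need0 (x y : ℤ) (h1 : ¬ (B (x - 1) (y - 1) ∧ B x (y - 1))) (h2 : ¬ (B (x - 1) y ∧ B x y))
    (h3 : ¬ (B (x - 1) (y - 1) ∧ B (x - 1) y)) (h4 : ¬ (B x (y - 1) ∧ B x y)) :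
    need B x y = 0 := by
  unfold need
  rw [be_f h1, be_f h2, be_f h3, be_f h4, be_f (fun h => h3 h.1)]
  norm_num

theorem exPB (h : Poly n B G W) (j : ℤ) (hN : ∃ i, B i j) (hlow : ∃ i' j', j' < j ∧ B i' j')
    (hnl : ¬ ∃ x, B x (j - 1) ∧ B x j) : ∃ x y, PB n B W j x y := by
  obtain ⟨lo, hlo, hlomin⟩ := Int.exists_least_of_bdd (P := fun i => B i j)
    ⟨0, fun z hz => (h.rng z _ hz).1⟩ hN
  obtain ⟨hi, hhi, himax⟩ := Int.exists_greatest_of_bdd (P := fun i => B i j)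
    ⟨n, fun z hz => (h.rng z _ hz).2.1.le⟩ hN
  obtain ⟨i0, j0, hj0, hB0⟩ := hlow
  -- no cell below shares a column with the row
  have F1 : ∀ i j', B i j → j' < j → ¬ B i j' := by
    intro i j' h1 h2 h3
    exact hnl ⟨i, h.col i j' (j - 1) j h3 h1 (by omega) (by omega), h1⟩
  have hrow : ∀ i, lo ≤ i → i ≤ hi → B i j := fun i h1 h2 => h.row lo i hi j hlo hhi h1 h2
  have hside : i0 < lo ∨ hi < i0 := by
    by_contra hcon
    push Not at hcon
    exact F1 i0 j0 (hrow i0 hcon.1 hcon.2) hj0 hB0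
  have rlo := h.rng _ _ hlo
  have rhi := h.rng _ _ hhi
  have r0 := h.rng _ _ hB0
  have hlohi : lo ≤ hi := hlomin hi hhi
  have nlo : ∀ i, i < lo → ¬ B i j := fun i h1 h2 => by have := hlomin i h2; omega
  have nhi : ∀ i, hi < i → ¬ B i j := fun i h1 h2 => by have := himax i h2; omega
  by_cases ha : ∃ i1 j1, j < j1 ∧ hi < i1 ∧ B i1 j1
  · -- case (a)
    obtain ⟨i1, j1, hj1, hi1, hB1⟩ := ha
    have r1 := h.rng _ _ hB1
    have hNE : NE B hi j := ⟨i1, j1, hi1, hj1, hB1⟩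
    have hG : G (hi + 1) j := by
      rcases hside with h1 | h1
      · exact (h.t1 hi j hhi ⟨i0, j0, by omega, hj0, hB0⟩ hNE).2
      · exact (h.t4 hi j hhi ⟨i0, j0, by omega, hj0, hB0⟩ hNE).1
    have hW := h.wt2 _ _ hG (by omega) (by omega) (by omega) (by omega)
    have hn : need B (hi + 1) j = 0 := by
      apply need0
      · rintro ⟨h1, -⟩
        rw [add_sub_cancel_right] at h1
        exact F1 hi _ hhi (by omega) h1
      · rintro ⟨-, h1⟩
        exact nhi _ (by omega) h1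
      · rintro ⟨h1, -⟩
        rw [add_sub_cancel_right] at h1
        exact F1 hi _ hhi (by omega) h1
      · rintro ⟨-, h1⟩
        exact nhi _ (by omega) h1
    exact ⟨hi + 1, j, ⟨by omega, by omega, by omega, by omega⟩, by omega, Or.inl ⟨rfl, hn, hW⟩⟩
  by_cases hb : ∃ i1 j1, j < j1 ∧ i1 < lo ∧ B i1 j1
  · -- case (b)
    obtain ⟨i1, j1, hj1, hi1, hB1⟩ := hb
    have r1 := h.rng _ _ hB1
    have hNW : NW B lo j := ⟨i1, j1, hi1, hj1, hB1⟩
    have hG : G lo j := by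
      rcases hside with h1 | h1
      · exact (h.t3 lo j hlo ⟨i0, j0, by omega, hj0, hB0⟩ hNW).1
      · exact (h.t2 lo j hlo ⟨i0, j0, by omega, hj0, hB0⟩ hNW).1
    have hW := h.wt2 _ _ hG (by omega) (by omega) (by omega) (by omega)
    have hn : need B lo j = 0 := by
      apply need0
      · rintro ⟨-, h1⟩
        exact F1 lo _ hlo (by omega) h1
      · rintro ⟨h1, -⟩
        exact nlo _ (by omega) h1
      · rintro ⟨-, h1⟩
        exact nlo _ (by omega) h1
      · rintro ⟨h1, -⟩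
        exact F1 lo _ hlo (by omega) h1
    exact ⟨lo, j, ⟨by omega, by omega, by omega, by omega⟩, by omega, Or.inl ⟨rfl, hn, hW⟩⟩
  -- case (c)
  have hc : ∀ i1 j1, j < j1 → B i1 j1 → lo ≤ i1 ∧ i1 ≤ hi := by
    intro i1 j1 h1 h2
    constructor
    · by_contra h3
      exact hb ⟨i1, j1, h1, by omega, h2⟩
    · by_contra h3
      exact ha ⟨i1, j1, h1, by omega, h2⟩
  by_cases hlh : lo < hi
  · -- T1a
    have hB1 : B (lo + 1) j := hrow _ (by omega) (by omega)
    have hG := (h.eh lo j hlo hB1).1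
    have hW := h.wt2 _ _ hG (by omega) (by omega) (by omega) (by omega)
    have hn : need B (lo + 1) j = 1 := by
      unfold need
      rw [add_sub_cancel_right, be_f (fun h1 => F1 lo _ hlo (by omega) h1.1), be_t ⟨hlo, hB1⟩,
        be_f (fun h1 => F1 lo _ hlo (by omega) h1.1), be_f (fun h1 => F1 _ _ hB1 (by omega) h1.1),
        be_f (fun h1 => F1 lo _ hlo (by omega) h1.1.1)]
      norm_num
    refine ⟨lo + 1, j, ⟨by omega, by omega, by omega, by omega⟩, by omega,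
      Or.inr (Or.inl ⟨rfl, hn, ?_, hB1⟩)⟩
    rwa [add_sub_cancel_right]
  have hlh' : lo = hi := by omega
  subst hlh'
  have hsing : ∀ i', B i' j → i' = lo := fun i' h1 => by
    have := hlomin i' h1; have := himax i' h1; omega
  by_cases hab : ∃ i1 j1, j < j1 ∧ B i1 j1
  · -- T1b
    obtain ⟨i1, j1, hj1, hB1⟩ := hab
    have hi1 : i1 = lo := by have := hc i1 j1 hj1 hB1; omega
    subst hi1
    have hBu : B i1 (j + 1) := h.col i1 j (j + 1) j1 hlo hB1 (by omega) (by omega)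
    have ru := h.rng _ _ hBu
    have hGs := h.ev i1 j hlo hBu
    have hup : ∀ i', B i' (j + 1) → i' = i1 := fun i' h1 => by
      have := hc i' (j + 1) (by omega) h1; omega
    rcases hside with h1 | h1
    · have hW := h.wt2 _ _ hGs.1 (by omega) (by omega) (by omega) (by omega)
      have hn : need B i1 (j + 1) = 1 := by
        unfold need
        rw [add_sub_cancel_right, be_f (fun h1 => nlo _ (by omega) h1.1),
          be_f (fun h1 => by have := hup _ h1.1; omega), be_f (fun h1 => nlo _ (by omega) h1.1),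
          be_t ⟨hlo, hBu⟩, be_f (fun h1 => nlo _ (by omega) h1.1.1)]
        norm_num
      exact ⟨i1, j + 1, ⟨by omega, by omega, by omega, by omega⟩, by omega,
        Or.inr (Or.inr (Or.inl ⟨rfl, hn, i1, hlo, hBu, hsing, fun i' j' h2 h3 => by
          have := hc i' j' h2 h3; omega⟩))⟩
    · have hW := h.wt2 _ _ hGs.2 (by omega) (by omega) (by omega) (by omega)
      have hn : need B (i1 + 1) (j + 1) = 1 := by
        unfold need
        rw [add_sub_cancel_right, add_sub_cancel_right, be_f (fun h1 => nhi _ (by omega) h1.2),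
          be_f (fun h1 => by have := hup _ h1.2; omega), be_t ⟨hlo, hBu⟩,
          be_f (fun h1 => nhi _ (by omega) h1.1), be_f (fun h1 => nhi _ (by omega) h1.2.1)]
        norm_num
      exact ⟨i1 + 1, j + 1, ⟨by omega, by omega, by omega, by omega⟩, by omega,
        Or.inr (Or.inr (Or.inl ⟨rfl, hn, i1, hlo, hBu, hsing, fun i' j' h2 h3 => by
          have := hc i' j' h2 h3; omega⟩))⟩
  · -- top row, a single cell
    have htop : ∀ i' j', j < j' → ¬ B i' j' := fun i' j' h1 h2 => hab ⟨i', j', h1, h2⟩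
    rcases hside with h1 | h1
    · by_cases hG : G lo j
      · have hW := h.wt2 _ _ hG (by omega) (by omega) (by omega) (by omega)
        have hn : need B lo j = 0 := by
          apply need0
          · rintro ⟨-, h1⟩; exact F1 lo _ hlo (by omega) h1
          · rintro ⟨h1, -⟩; exact nlo _ (by omega) h1
          · rintro ⟨-, h1⟩; exact nlo _ (by omega) h1
          · rintro ⟨h1, -⟩; exact F1 lo _ hlo (by omega) h1
        exact ⟨lo, j, ⟨by omega, by omega, by omega, by omega⟩, by omega, Or.inl ⟨rfl, hn, hW⟩⟩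
      · obtain ⟨-, hSE, hW⟩ := h.uSW lo j hlo ⟨i0, j0, by omega, hj0, hB0⟩ hG
        have hbel : ∀ i' j', j' < j → B i' j' → i' < lo := by
          intro i' j' h2 h3
          rcases lt_trichotomy i' lo with h4 | h4 | h4
          · exact h4
          · subst h4; exact absurd h3 (F1 _ _ hlo h2)
          · exact absurd ⟨i', j', h4, h2, h3⟩ hSE
        rcases hW with hW | hW | hW
        · have hn : need B lo (j + 1) = 0 := by
            apply need0
            · rintro ⟨h1, -⟩; rw [add_sub_cancel_right] at h1; exact nlo _ (by omega) h1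
            · rintro ⟨-, h1⟩; exact htop _ _ (by omega) h1
            · rintro ⟨-, h1⟩; exact htop _ _ (by omega) h1
            · rintro ⟨-, h1⟩; exact htop _ _ (by omega) h1
          exact ⟨lo, j + 1, ⟨by omega, by omega, by omega, by omega⟩, by omega,
            Or.inr (Or.inr (Or.inr ⟨Or.inr rfl, hn, htop, lo, hlo, Or.inl rfl,
              Or.inl ⟨hbel, by omega⟩⟩))⟩
        · have hn : need B (lo + 1) j = 0 := by
            apply need0
            · rintro ⟨-, h1⟩; have := hbel _ _ (by omega) h1; omega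
            · rintro ⟨-, h1⟩; exact nhi _ (by omega) h1
            · rintro ⟨h1, -⟩; rw [add_sub_cancel_right] at h1; exact F1 lo _ hlo (by omega) h1
            · rintro ⟨-, h1⟩; exact nhi _ (by omega) h1
          exact ⟨lo + 1, j, ⟨by omega, by omega, by omega, by omega⟩, by omega,
            Or.inr (Or.inr (Or.inr ⟨Or.inl rfl, hn, htop, lo, hlo, Or.inr rfl,
              Or.inl ⟨hbel, by omega⟩⟩))⟩
        · have hn : need B (lo + 1) (j + 1) = 0 := by
            apply need0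
            · rintro ⟨-, h1⟩; rw [add_sub_cancel_right] at h1; exact nhi _ (by omega) h1
            · rintro ⟨-, h1⟩; exact htop _ _ (by omega) h1
            · rintro ⟨-, h1⟩; exact htop _ _ (by omega) h1
            · rintro ⟨-, h1⟩; exact htop _ _ (by omega) h1
          exact ⟨lo + 1, j + 1, ⟨by omega, by omega, by omega, by omega⟩, by omega,
            Or.inr (Or.inr (Or.inr ⟨Or.inr rfl, hn, htop, lo, hlo, Or.inr rfl,
              Or.inl ⟨hbel, by omega⟩⟩))⟩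
    · by_cases hG : G (lo + 1) j
      · have hW := h.wt2 _ _ hG (by omega) (by omega) (by omega) (by omega)
        have hn : need B (lo + 1) j = 0 := by
          apply need0
          · rintro ⟨h1, -⟩; rw [add_sub_cancel_right] at h1; exact F1 lo _ hlo (by omega) h1
          · rintro ⟨-, h1⟩; exact nhi _ (by omega) h1
          · rintro ⟨h1, -⟩; rw [add_sub_cancel_right] at h1; exact F1 lo _ hlo (by omega) h1
          · rintro ⟨-, h1⟩; exact nhi _ (by omega) h1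
        exact ⟨lo + 1, j, ⟨by omega, by omega, by omega, by omega⟩, by omega,
          Or.inl ⟨rfl, hn, hW⟩⟩
      · obtain ⟨hSW, -, hW⟩ := h.uSE lo j hlo ⟨i0, j0, by omega, hj0, hB0⟩ hG
        have hbel : ∀ i' j', j' < j → B i' j' → lo < i' := by
          intro i' j' h2 h3
          rcases lt_trichotomy i' lo with h4 | h4 | h4
          · exact absurd ⟨i', j', h4, h2, h3⟩ hSW
          · subst h4; exact absurd h3 (F1 _ _ hlo h2)
          · exact h4
        rcases hW with hW | hW | hW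
        · have hn : need B lo j = 0 := by
            apply need0
            · rintro ⟨-, h1⟩; exact F1 lo _ hlo (by omega) h1
            · rintro ⟨h1, -⟩; exact nlo _ (by omega) h1
            · rintro ⟨-, h1⟩; exact nlo _ (by omega) h1
            · rintro ⟨h1, -⟩; exact F1 lo _ hlo (by omega) h1
          exact ⟨lo, j, ⟨by omega, by omega, by omega, by omega⟩, by omega,
            Or.inr (Or.inr (Or.inr ⟨Or.inl rfl, hn, htop, lo, hlo, Or.inl rfl,
              Or.inr ⟨hbel, by omega⟩⟩))⟩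
        · have hn : need B (lo + 1) (j + 1) = 0 := by
            apply need0
            · rintro ⟨-, h1⟩; rw [add_sub_cancel_right] at h1; exact nhi _ (by omega) h1
            · rintro ⟨-, h1⟩; exact htop _ _ (by omega) h1
            · rintro ⟨-, h1⟩; exact htop _ _ (by omega) h1
            · rintro ⟨-, h1⟩; exact htop _ _ (by omega) h1
          exact ⟨lo + 1, j + 1, ⟨by omega, by omega, by omega, by omega⟩, by omega,
            Or.inr (Or.inr (Or.inr ⟨Or.inr rfl, hn, htop, lo, hlo, Or.inr rfl,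
              Or.inr ⟨hbel, by omega⟩⟩))⟩
        · have hn : need B lo (j + 1) = 0 := by
            apply need0
            · rintro ⟨h1, -⟩; rw [add_sub_cancel_right] at h1; exact nlo _ (by omega) h1
            · rintro ⟨-, h1⟩; exact htop _ _ (by omega) h1
            · rintro ⟨-, h1⟩; exact htop _ _ (by omega) h1
            · rintro ⟨-, h1⟩; exact htop _ _ (by omega) h1
          exact ⟨lo, j + 1, ⟨by omega, by omega, by omega, by omega⟩, by omega,
            Or.inr (Or.inr (Or.inr ⟨Or.inr rfl, hn, htop, lo, hlo, Or.inl rfl,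
              Or.inr ⟨hbel, by omega⟩⟩))⟩

/-! ### reflection -/

theorem refl (h : Poly n B G W) :
    Poly n (fun i j => B i (n - 1 - j)) (fun x y => G x (n - y)) (fun x y => W x (n - y)) := by
  have hSW : ∀ i j, SW (fun i j => B i (n - 1 - j)) i j ↔ NW B i (n - 1 - j) := by
    intro i j
    constructor
    · rintro ⟨i', j', h1, h2, h3⟩; exact ⟨i', n - 1 - j', h1, by omega, h3⟩
    · rintro ⟨i', j', h1, h2, h3⟩
      refine ⟨i', n - 1 - j', h1, by omega, ?_⟩
      have e : (n : ℤ) - 1 - (n - 1 - j') = j' := by ring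
      simp only [e]; exact h3
  have hSE : ∀ i j, SE (fun i j => B i (n - 1 - j)) i j ↔ NE B i (n - 1 - j) := by
    intro i j
    constructor
    · rintro ⟨i', j', h1, h2, h3⟩; exact ⟨i', n - 1 - j', h1, by omega, h3⟩
    · rintro ⟨i', j', h1, h2, h3⟩
      refine ⟨i', n - 1 - j', h1, by omega, ?_⟩
      have e : (n : ℤ) - 1 - (n - 1 - j') = j' := by ring
      simp only [e]; exact h3
  have hNW : ∀ i j, NW (fun i j => B i (n - 1 - j)) i j ↔ SW B i (n - 1 - j) := by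
    intro i j
    constructor
    · rintro ⟨i', j', h1, h2, h3⟩; exact ⟨i', n - 1 - j', h1, by omega, h3⟩
    · rintro ⟨i', j', h1, h2, h3⟩
      refine ⟨i', n - 1 - j', h1, by omega, ?_⟩
      have e : (n : ℤ) - 1 - (n - 1 - j') = j' := by ring
      simp only [e]; exact h3
  have hNE : ∀ i j, NE (fun i j => B i (n - 1 - j)) i j ↔ SE B i (n - 1 - j) := by
    intro i j
    constructor
    · rintro ⟨i', j', h1, h2, h3⟩; exact ⟨i', n - 1 - j', h1, by omega, h3⟩
    · rintro ⟨i', j', h1, h2, h3⟩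
      refine ⟨i', n - 1 - j', h1, by omega, ?_⟩
      have e : (n : ℤ) - 1 - (n - 1 - j') = j' := by ring
      simp only [e]; exact h3
  have e1 : ∀ j : ℤ, (n : ℤ) - (j + 1) = n - 1 - j := fun j => by ring
  have e2 : ∀ j : ℤ, (n : ℤ) - j = (n - 1 - j) + 1 := fun j => by ring
  refine ⟨?_, ?_, ?_, ?_, ?_, ?_, ?_, ?_, ?_, ?_, ?_, ?_, ?_, ?_, ?_, ?_⟩
  · intro i j hB
    have := h.rng _ _ hB
    omega
  · intro i i' i'' j h1 h2 h3 h4
    exact h.row i i' i'' _ h1 h2 h3 h4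
  · intro i j j' j'' h1 h2 h3 h4
    exact h.col i _ _ _ h2 h1 (by omega) (by omega)
  · intro i j h1 h2 h3 h4 h5
    exact h.wt2 _ _ h1 h2 h3 (by omega) (by omega)
  · intro i j h1 h2 h3 h4 h5
    exact h.wt1x _ _ h1 h2 h3 (by omega) (by omega)
  · intro i j h1 h2 h3 h4 h5
    exact h.wt1y _ _ h1 h2 h3 (by omega) (by omega)
  · intro i j h1 h2
    have := h.eh _ _ h1 h2
    simp only [e1]
    rw [e2 j]
    exact ⟨this.2, this.1⟩
  · intro i j h1 h2
    have h2' : B i (n - 1 - j - 1) := by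
      have e : (n : ℤ) - 1 - (j + 1) = n - 1 - j - 1 := by ring
      rwa [e] at h2
    have := h.ev i (n - 1 - j - 1) h2' (by rwa [sub_add_cancel])
    rw [sub_add_cancel] at this
    simp only [e1]
    exact this
  · intro i j h1 h2 h3
    rw [hSW] at h2
    rw [hNE] at h3
    have := h.t2 _ _ h1 h3 h2
    simp only [e1]
    rw [e2 j]
    exact this
  · intro i j h1 h2 h3
    rw [hSE] at h2
    rw [hNW] at h3
    have := h.t1 _ _ h1 h3 h2
    simp only [e1]
    rw [e2 j]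
    exact this
  · intro i j h1 h2 h3
    rw [hSW] at h2
    rw [hNW] at h3
    have := h.t3 _ _ h1 h3 h2
    simp only [e1]
    rw [e2 j]
    exact ⟨this.2, this.1⟩
  · intro i j h1 h2 h3
    rw [hSE] at h2
    rw [hNE] at h3
    have := h.t4 _ _ h1 h3 h2
    simp only [e1]
    rw [e2 j]
    exact ⟨this.2, this.1⟩
  · intro i j h1 h2 h3
    rw [hSW] at h2
    rw [e2 j] at h3
    have := h.uNW _ _ h1 h2 h3
    rw [hNW, hSE]
    simp only [e1]
    rw [e2 j]
    tauto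
  · intro i j h1 h2 h3
    rw [hSE] at h2
    rw [e2 j] at h3
    have := h.uNE _ _ h1 h2 h3
    rw [hSW, hNE]
    simp only [e1]
    rw [e2 j]
    tauto
  · intro i j h1 h2 h3
    rw [hNW] at h2
    simp only [e1] at h3
    have := h.uSW _ _ h1 h2 h3
    rw [hSW, hNE]
    simp only [e1]
    rw [e2 j]
    tauto
  · intro i j h1 h2 h3
    rw [hNE] at h2
    simp only [e1] at h3
    have := h.uSE _ _ h1 h2 h3
    rw [hNW, hSE]
    simp only [e1]
    rw [e2 j]
    tauto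

theorem need_refl (x y : ℤ) : need (fun i j => B i (n - 1 - j)) x y = need B x (n - y) := by
  unfold need
  have e1 : (n : ℤ) - 1 - (y - 1) = n - y := by ring
  have e2 : (n : ℤ) - 1 - y = n - y - 1 := by ring
  simp only [e1, e2]
  rw [be_congr (and_comm (a := B (x - 1) (n - y)) (b := B (x - 1) (n - y - 1))),
    be_congr (and_comm (a := B x (n - y)) (b := B x (n - y - 1)))]
  rw [be_congr (P := (B (x - 1) (n - y) ∧ B (x - 1) (n - y - 1)) ∧ B x (n - y) ∧ B x (n - y - 1))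
    (Q := (B (x - 1) (n - y - 1) ∧ B (x - 1) (n - y)) ∧ B x (n - y - 1) ∧ B x (n - y)) (by tauto)]
  ring

theorem exPT (h : Poly n B G W) (j : ℤ) (hN : ∃ i, B i j) (hup : ∃ i' j', j < j' ∧ B i' j')
    (hnl : ¬ ∃ x, B x j ∧ B x (j + 1)) : ∃ x y, PT n B W j x y := by
  have e0 : (n : ℤ) - 1 - (n - 1 - j) = j := by ring
  obtain ⟨x, y, hr, hw, hc⟩ := exPB (refl h) (n - 1 - j) (by simp only [e0]; exact hN)
    (by
      obtain ⟨i', j', h1, h2⟩ := hup
      refine ⟨i', n - 1 - j', by omega, ?_⟩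
      have e : (n : ℤ) - 1 - (n - 1 - j') = j' := by ring
      simp only [e]; exact h2)
    (by
      rintro ⟨x, h1, h2⟩
      simp only [e0] at h2
      have e : (n : ℤ) - 1 - (n - 1 - j - 1) = j + 1 := by ring
      simp only [e] at h1
      exact hnl ⟨x, h2, h1⟩)
  rw [need_refl] at hw hc
  simp only [e0] at hc
  have hbelow : ∀ (p : ℤ → Prop), (∀ i' j' : ℤ, j' < n - 1 - j → B i' (n - 1 - j') → p i') →
      ∀ i' j' : ℤ, j < j' → B i' j' → p i' := by
    intro p h1 i' j' h2 h3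
    apply h1 i' (n - 1 - j') (by omega)
    have e : (n : ℤ) - 1 - (n - 1 - j') = j' := by ring
    rwa [e]
  have habove : ∀ (p : ℤ → Prop), (∀ i' j' : ℤ, n - 1 - j < j' → B i' (n - 1 - j') → p i') →
      ∀ i' j' : ℤ, j' < j → B i' j' → p i' := by
    intro p h1 i' j' h2 h3
    apply h1 i' (n - 1 - j') (by omega)
    have e : (n : ℤ) - 1 - (n - 1 - j') = j' := by ring
    rwa [e]
  refine ⟨x, n - y, ⟨hr.1, hr.2.1, by omega, by omega⟩, hw, ?_⟩
  rcases hc with ⟨h1, h2, h3⟩ | ⟨h1, h2, h3, h4⟩ | ⟨h1, h2, i, h3, h4, h5, h6⟩ |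
    ⟨h1, h2, h3, i, h4, h5, h6⟩
  · exact Or.inl ⟨by omega, h2, h3⟩
  · exact Or.inr (Or.inl ⟨by omega, h2, h3, h4⟩)
  · refine Or.inr (Or.inr (Or.inl ⟨by omega, h2, i, h3, ?_, h5, ?_⟩))
    · have e : (n : ℤ) - 1 - (n - 1 - j + 1) = j - 1 := by ring
      rwa [e] at h4
    · exact habove (fun i' => i' = i) h6
  · refine Or.inr (Or.inr (Or.inr ⟨by omega, h2, ?_, i, h4, h5, ?_⟩))
    · intro i' j' h7 h8
      exact habove (fun _ => False) h3 i' j' h7 h8
    · rcases h6 with ⟨h7, h8⟩ | ⟨h7, h8⟩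
      · exact Or.inl ⟨hbelow (fun i' => i' < i) h7, by omega⟩
      · exact Or.inr ⟨hbelow (fun i' => i < i') h7, by omega⟩

/-! ### the count -/

theorem count_low (h : Poly n B G W) (Jb : Finset ℤ)
    (hJ : ∀ j, j ∈ Jb ↔ (∃ i, B i j) ∧ (∃ i' j', j' < j ∧ B i' j') ∧ ¬ ∃ x, B x (j - 1) ∧ B x j) :
    ∑ y ∈ Icc (0 : ℤ) n, be (∃ i, B i y) ≤
      1 + Jb.card + ∑ y ∈ Icc (0 : ℤ) n, be (∃ i, B i (y - 1) ∧ B i y) := by
  classical
  have h1 : ∀ y, be (∃ i, B i y) ≤ be ((∃ i, B i y) ∧ ∀ i' j', j' < y → ¬ B i' j') + be (y ∈ Jb) +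
      be (∃ i, B i (y - 1) ∧ B i y) := by
    intro y
    have a1 := be_nonneg ((∃ i, B i y) ∧ ∀ i' j', j' < y → ¬ B i' j')
    have a2 := be_nonneg (y ∈ Jb)
    have a3 := be_nonneg (∃ i, B i (y - 1) ∧ B i y)
    by_cases hN : ∃ i, B i y
    · rw [be_t hN]
      by_cases hlow : ∃ i' j', j' < y ∧ B i' j'
      · by_cases hL : ∃ i, B i (y - 1) ∧ B i y
        · rw [be_t hL]; omega
        · rw [be_t ((hJ y).2 ⟨hN, hlow, hL⟩)]; omega
      · have : (∃ i, B i y) ∧ ∀ i' j', j' < y → ¬ B i' j' :=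
          ⟨hN, fun i' j' h1 h2 => hlow ⟨i', j', h1, h2⟩⟩
        rw [be_t this]; omega
    · rw [be_f hN]; omega
  have h2 : ∑ y ∈ Icc (0 : ℤ) n, be ((∃ i, B i y) ∧ ∀ i' j', j' < y → ¬ B i' j') ≤ 1 := by
    rw [sum_be]
    have : (filter (fun y => (∃ i, B i y) ∧ ∀ i' j', j' < y → ¬ B i' j') (Icc (0 : ℤ) n)).card ≤ 1 := by
      rw [card_le_one]
      intro a ha b hb
      rw [mem_filter] at ha hb
      obtain ⟨-, ⟨i, hi⟩, ha⟩ := ha
      obtain ⟨-, ⟨i', hi'⟩, hb⟩ := hb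
      rcases lt_trichotomy a b with h3 | h3 | h3
      · exact absurd hi (hb _ _ h3)
      · exact h3
      · exact absurd hi' (ha _ _ h3)
    exact_mod_cast this
  have h3 : ∑ y ∈ Icc (0 : ℤ) n, be (y ∈ Jb) = Jb.card := by
    rw [sum_be]
    congr 2
    ext y
    rw [mem_filter]
    constructor
    · exact fun h => h.2
    · intro h4
      refine ⟨?_, h4⟩
      obtain ⟨⟨i, hi⟩, -⟩ := (hJ y).1 h4
      have := h.rng _ _ hi
      rw [mem_Icc]; omega
  calc _ ≤ ∑ y ∈ Icc (0 : ℤ) n, (be ((∃ i, B i y) ∧ ∀ i' j', j' < y → ¬ B i' j') + be (y ∈ Jb) +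
      be (∃ i, B i (y - 1) ∧ B i y)) := sum_le_sum fun y _ => h1 y
    _ ≤ _ := by
      rw [sum_add_distrib, sum_add_distrib, h3]
      omega

theorem count_high (h : Poly n B G W) (Jt : Finset ℤ)
    (hJ : ∀ j, j ∈ Jt ↔ (∃ i, B i j) ∧ (∃ i' j', j < j' ∧ B i' j') ∧ ¬ ∃ x, B x j ∧ B x (j + 1)) :
    ∑ y ∈ Icc (0 : ℤ) n, be (∃ i, B i y) ≤
      1 + Jt.card + ∑ y ∈ Icc (0 : ℤ) n, be (∃ i, B i (y - 1) ∧ B i y) := by
  classical
  have h1 : ∀ y, be (∃ i, B i y) ≤ be ((∃ i, B i y) ∧ ∀ i' j', y < j' → ¬ B i' j') + be (y ∈ Jt) +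
      be (∃ i, B i y ∧ B i (y + 1)) := by
    intro y
    have a1 := be_nonneg ((∃ i, B i y) ∧ ∀ i' j', y < j' → ¬ B i' j')
    have a2 := be_nonneg (y ∈ Jt)
    have a3 := be_nonneg (∃ i, B i y ∧ B i (y + 1))
    by_cases hN : ∃ i, B i y
    · rw [be_t hN]
      by_cases hlow : ∃ i' j', y < j' ∧ B i' j'
      · by_cases hL : ∃ i, B i y ∧ B i (y + 1)
        · rw [be_t hL]; omega
        · rw [be_t ((hJ y).2 ⟨hN, hlow, hL⟩)]; omega
      · have : (∃ i, B i y) ∧ ∀ i' j', y < j' → ¬ B i' j' :=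
          ⟨hN, fun i' j' h1 h2 => hlow ⟨i', j', h1, h2⟩⟩
        rw [be_t this]; omega
    · rw [be_f hN]; omega
  have h2 : ∑ y ∈ Icc (0 : ℤ) n, be ((∃ i, B i y) ∧ ∀ i' j', y < j' → ¬ B i' j') ≤ 1 := by
    rw [sum_be]
    have : (filter (fun y => (∃ i, B i y) ∧ ∀ i' j', y < j' → ¬ B i' j') (Icc (0 : ℤ) n)).card ≤ 1 := by
      rw [card_le_one]
      intro a ha b hb
      rw [mem_filter] at ha hb
      obtain ⟨-, ⟨i, hi⟩, ha⟩ := ha
      obtain ⟨-, ⟨i', hi'⟩, hb⟩ := hb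
      rcases lt_trichotomy a b with h3 | h3 | h3
      · exact absurd hi' (ha _ _ h3)
      · exact h3
      · exact absurd hi (hb _ _ h3)
    exact_mod_cast this
  have h3 : ∑ y ∈ Icc (0 : ℤ) n, be (y ∈ Jt) = Jt.card := by
    rw [sum_be]
    congr 2
    ext y
    rw [mem_filter]
    constructor
    · exact fun h => h.2
    · intro h4
      refine ⟨?_, h4⟩
      obtain ⟨⟨i, hi⟩, -⟩ := (hJ y).1 h4
      have := h.rng _ _ hi
      rw [mem_Icc]; omega
  have h4 := sum_shift n (fun y => be (∃ i, B i y ∧ B i (y + 1)))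
    (be_f fun ⟨i, hc⟩ => by have := (h.rng _ _ hc.1).2.2.1; omega)
    (be_f fun ⟨i, hc⟩ => by have := (h.rng _ _ hc.1).2.2.2; omega)
  simp only [sub_add_cancel] at h4
  calc _ ≤ ∑ y ∈ Icc (0 : ℤ) n, (be ((∃ i, B i y) ∧ ∀ i' j', y < j' → ¬ B i' j') + be (y ∈ Jt) +
      be (∃ i, B i y ∧ B i (y + 1))) := sum_le_sum fun y _ => h1 y
    _ ≤ _ := by
      rw [sum_add_distrib, sum_add_distrib, h3, ← h4]
      omega

/-- the number of elements of a set, through an injection into the grid -/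
theorem card_inj (J : Finset ℤ) (g : Finset (ℤ × ℤ)) (f : ℤ → ℤ × ℤ) (hf : ∀ j ∈ J, f j ∈ g)
    (hinj : ∀ j ∈ J, ∀ j' ∈ J, f j = f j' → j = j') :
    (J.card : ℤ) = ∑ v ∈ g, be (∃ j ∈ J, f j = v) := by
  classical
  rw [sum_be]
  have : filter (fun v => ∃ j ∈ J, f j = v) g = J.image f := by
    ext v
    rw [mem_filter, mem_image]
    constructor
    · exact fun h => h.2
    · rintro ⟨j, hj, rfl⟩
      exact ⟨hf j hj, j, hj, rfl⟩
  rw [this, card_image_of_injOn]
  intro a ha b hb hab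
  exact hinj a ha b hb hab

end

end PL

open PL in
/-- **The grid lemma.** -/
theorem pl : S_PL := by
  classical
  intro n B G W h
  let g : Finset (ℤ × ℤ) := Icc (0 : ℤ) n ×ˢ Icc (0 : ℤ) n
  let Jb : Finset ℤ := (Icc (0 : ℤ) n).filter fun j =>
    (∃ i, B i j) ∧ (∃ i' j', j' < j ∧ B i' j') ∧ ¬ ∃ x, B x (j - 1) ∧ B x j
  let Jt : Finset ℤ := (Icc (0 : ℤ) n).filter fun j =>
    (∃ i, B i j) ∧ (∃ i' j', j < j' ∧ B i' j') ∧ ¬ ∃ x, B x j ∧ B x (j + 1)
  have hJb : ∀ j, j ∈ Jb ↔ (∃ i, B i j) ∧ (∃ i' j', j' < j ∧ B i' j') ∧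
      ¬ ∃ x, B x (j - 1) ∧ B x j := by
    intro j
    simp only [Jb, mem_filter]
    constructor
    · exact fun h => h.2
    · intro h1
      obtain ⟨i, hi⟩ := h1.1
      have := h.rng _ _ hi
      exact ⟨mem_Icc.2 (by omega), h1⟩
  have hJt : ∀ j, j ∈ Jt ↔ (∃ i, B i j) ∧ (∃ i' j', j < j' ∧ B i' j') ∧
      ¬ ∃ x, B x j ∧ B x (j + 1) := by
    intro j
    simp only [Jt, mem_filter]
    constructor
    · exact fun h => h.2
    · intro h1
      obtain ⟨i, hi⟩ := h1.1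
      have := h.rng _ _ hi
      exact ⟨mem_Icc.2 (by omega), h1⟩
  obtain ⟨b, hb⟩ : ∃ b : ℤ → ℤ × ℤ, ∀ j ∈ Jb, PB n B W j (b j).1 (b j).2 := by
    have : ∀ j, ∃ v : ℤ × ℤ, j ∈ Jb → PB n B W j v.1 v.2 := by
      intro j
      by_cases hj : j ∈ Jb
      · obtain ⟨h1, h2, h3⟩ := (hJb j).1 hj
        obtain ⟨x, y, hxy⟩ := exPB h j h1 h2 h3
        exact ⟨(x, y), fun _ => hxy⟩
      · exact ⟨(0, 0), fun h => absurd h hj⟩
    choose b hb using this
    exact ⟨b, hb⟩
  obtain ⟨t, ht⟩ : ∃ t : ℤ → ℤ × ℤ, ∀ j ∈ Jt, PT n B W j (t j).1 (t j).2 := by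
    have : ∀ j, ∃ v : ℤ × ℤ, j ∈ Jt → PT n B W j v.1 v.2 := by
      intro j
      by_cases hj : j ∈ Jt
      · obtain ⟨h1, h2, h3⟩ := (hJt j).1 hj
        obtain ⟨x, y, hxy⟩ := exPT h j h1 h2 h3
        exact ⟨(x, y), fun _ => hxy⟩
      · exact ⟨(0, 0), fun h => absurd h hj⟩
    choose t ht using this
    exact ⟨t, ht⟩
  -- the payments of different rows go to different vertices
  have hbi' : ∀ j ∈ Jb, ∀ j' ∈ Jb, j < j' → b j ≠ b j' := by
    intro j hj j' hj' hlt heq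
    obtain ⟨-, -, h1⟩ := hb j hj
    obtain ⟨-, -, h2⟩ := hb j' hj'
    rw [← heq] at h2
    have hy' : (b j).2 = j' ∨ (b j).2 = j' + 1 := by
      rcases h2 with h2 | h2 | h2 | h2 <;> omega
    have hJ' := (hJb j').1 hj'
    rcases h1 with h1 | h1 | ⟨h1, -, i, h3, h4, -, -⟩ | ⟨h1, -, h3, -⟩
    · omega
    · omega
    · have : j' = j + 1 := by omega
      subst this
      exact hJ'.2.2 ⟨i, by rwa [add_sub_cancel_right], h4⟩
    · obtain ⟨i', hi'⟩ := hJ'.1
      exact h3 i' j' hlt hi'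
  have hbi : ∀ j ∈ Jb, ∀ j' ∈ Jb, b j = b j' → j = j' := by
    intro j hj j' hj' heq
    rcases lt_trichotomy j j' with h1 | h1 | h1
    · exact absurd heq (hbi' j hj j' hj' h1)
    · exact h1
    · exact absurd heq.symm (hbi' j' hj' j hj h1)
  have hti' : ∀ j ∈ Jt, ∀ j' ∈ Jt, j' < j → t j ≠ t j' := by
    intro j hj j' hj' hlt heq
    obtain ⟨-, -, h1⟩ := ht j hj
    obtain ⟨-, -, h2⟩ := ht j' hj'
    rw [← heq] at h2
    have hy' : (t j).2 = j' ∨ (t j).2 = j' + 1 := by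
      rcases h2 with h2 | h2 | h2 | h2 <;> omega
    have hJ' := (hJt j').1 hj'
    rcases h1 with h1 | h1 | ⟨h1, -, i, h3, h4, -, -⟩ | ⟨h1, -, h3, -⟩
    · omega
    · omega
    · have : j = j' + 1 := by omega
      subst this
      exact hJ'.2.2 ⟨i, by rwa [add_sub_cancel_right] at h4, h3⟩
    · obtain ⟨i', hi'⟩ := hJ'.1
      exact h3 i' j' hlt hi'
  have hti : ∀ j ∈ Jt, ∀ j' ∈ Jt, t j = t j' → j = j' := by
    intro j hj j' hj' heq
    rcases lt_trichotomy j j' with h1 | h1 | h1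
    · exact absurd heq.symm (hti' j' hj' j hj h1)
    · exact h1
    · exact absurd heq (hti' j hj j' hj' h1)
  have hcb := card_inj Jb g b (fun j hj => by
    obtain ⟨⟨h1, h2, h3, h4⟩, -⟩ := hb j hj
    exact mem_product.2 ⟨mem_Icc.2 ⟨h1, h2⟩, mem_Icc.2 ⟨h3, h4⟩⟩) hbi
  have hct := card_inj Jt g t (fun j hj => by
    obtain ⟨⟨h1, h2, h3, h4⟩, -⟩ := ht j hj
    exact mem_product.2 ⟨mem_Icc.2 ⟨h1, h2⟩, mem_Icc.2 ⟨h3, h4⟩⟩) hti
  -- the pointwise inequality
  have hpt : ∀ v ∈ g, need B v.1 v.2 + be (∃ j ∈ Jb, b j = v) + be (∃ j ∈ Jt, t j = v) ≤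
      W v.1 v.2 := by
    intro v _
    by_cases hvb : ∃ j ∈ Jb, b j = v
    · by_cases hvt : ∃ j ∈ Jt, t j = v
      · rw [be_t hvb, be_t hvt]
        obtain ⟨j, hj, rfl⟩ := hvb
        obtain ⟨j', hj', hv⟩ := hvt
        obtain ⟨-, h1, h2⟩ := hb j hj
        obtain ⟨-, h3, h4⟩ := ht j' hj'
        rw [hv] at h3 h4
        obtain ⟨hN, ⟨ic, jc, hjc, hBc⟩, hnl⟩ := (hJb j).1 hj
        obtain ⟨hN', ⟨id, jd, hjd, hBd⟩, hnl'⟩ := (hJt j').1 hj'
        rcases h2 with ⟨y1, n1, w1⟩ | ⟨y1, n1, a1, a2⟩ | ⟨y1, n1, i1, a1, a2, a3, a4⟩ |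
          ⟨y1, n1, a0, i1, a1, a2, a3⟩
        · omega
        · rcases h4 with ⟨y2, n2, w2⟩ | ⟨y2, n2, b1, b2⟩ | ⟨y2, n2, i2, b1, b2, b3, b4⟩ |
            ⟨y2, n2, b0, i2, b1, b2, b3⟩
          · omega
          · exfalso
            have : j' = j - 1 := by omega
            subst this
            exact hnl ⟨_, b2, a2⟩
          · exfalso
            have : j' = j := by omega
            subst this
            have e1 := b3 _ a1
            have e2 := b3 _ a2
            omega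
          · omega
        · rcases h4 with ⟨y2, n2, w2⟩ | ⟨y2, n2, b1, b2⟩ | ⟨y2, n2, i2, b1, b2, b3, b4⟩ |
            ⟨y2, n2, b0, i2, b1, b2, b3⟩
          · omega
          · exfalso
            have : j' = j := by omega
            subst this
            have e1 := a3 _ b1
            have e2 := a3 _ b2
            omega
          · exfalso
            have : j' = j + 1 := by omega
            subst this
            have e1 : i1 = i2 := b3 _ a2
            have e2 : ic = i2 := b4 ic jc (by omega) hBc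
            subst e1
            subst e2
            exact hnl ⟨_, h.col _ jc (j - 1) j hBc a1 (by omega) (by omega), a1⟩
          · omega
        · rcases h4 with ⟨y2, n2, w2⟩ | ⟨y2, n2, b1, b2⟩ | ⟨y2, n2, i2, b1, b2, b3, b4⟩ |
            ⟨y2, n2, b0, i2, b1, b2, b3⟩
          · omega
          · omega
          · omega
          · exfalso
            have hjj : j' < j := by
              by_contra hcon
              exact b0 ic jc (by omega) hBc
            rcases a3 with ⟨a3, a4⟩ | ⟨a3, a4⟩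
            · have := a3 i2 j' hjj b1
              omega
            · have := a3 i2 j' hjj b1
              omega
      · rw [be_t hvb, be_f hvt]
        obtain ⟨j, hj, rfl⟩ := hvb
        obtain ⟨-, h1, -⟩ := hb j hj
        omega
    · by_cases hvt : ∃ j ∈ Jt, t j = v
      · rw [be_f hvb, be_t hvt]
        obtain ⟨j, hj, rfl⟩ := hvt
        obtain ⟨-, h1, -⟩ := ht j hj
        omega
      · rw [be_f hvb, be_f hvt]
        have := need_le h v.1 v.2
        omega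
  have hsum := sum_le_sum hpt
  rw [sum_add_distrib, sum_add_distrib, ← hcb, ← hct] at hsum
  have e1 : ∑ v ∈ g, need B v.1 v.2 = ∑ y ∈ Icc (0 : ℤ) n, ∑ x ∈ Icc (0 : ℤ) n, need B x y := by
    rw [sum_product_right]
  rw [e1, total_need h] at hsum
  have hl := count_low h Jb hJb
  have hh := count_high h Jt hJt
  -- back to the statement
  have e2 : ((∑ i ∈ range n, ∑ j ∈ range n, (if B i j then 1 else 0) : ℕ) : ℤ) =
      ∑ y ∈ Icc (0 : ℤ) n, ∑ x ∈ Icc (0 : ℤ) n, be (B x y) := by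
    push_cast
    rw [sum_comm (s := Icc (0 : ℤ) n)]
    have e3 : ∀ x : ℤ, ∑ j ∈ range n, (if B x j then (1 : ℤ) else 0) =
        ∑ y ∈ Icc (0 : ℤ) n, be (B x y) := by
      intro x
      rw [sum_range_int n (fun y => if B x y then (1 : ℤ) else 0)]
      unfold be
      apply sum_subset
      · intro y hy; rw [mem_Ico] at hy; rw [mem_Icc]; omega
      · intro y hy hy'
        rw [mem_Icc] at hy; rw [mem_Ico] at hy'
        rw [if_neg]
        intro hB
        have := h.rng _ _ hB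
        omega
    rw [sum_congr rfl fun (i : ℕ) _ => e3 (i : ℤ), sum_range_int n (fun x => ∑ y ∈ Icc (0 : ℤ) n, be (B x y))]
    apply sum_subset
    · intro y hy; rw [mem_Ico] at hy; rw [mem_Icc]; omega
    · intro y hy hy'
      rw [mem_Icc] at hy; rw [mem_Ico] at hy'
      apply sum_eq_zero
      intro z _
      rw [be_f]
      intro hB
      have := h.rng _ _ hB
      omega
  have e4 : ((∑ i ∈ range (n + 1), ∑ j ∈ range (n + 1), W i j : ℕ) : ℤ) =
      ∑ v ∈ g, (W v.1 v.2 : ℤ) := by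
    push_cast
    have e5 : Ico (0 : ℤ) ((n + 1 : ℕ) : ℤ) = Icc (0 : ℤ) n := by
      ext y; rw [mem_Ico, mem_Icc]; push_cast; omega
    have e6 : ∀ x : ℤ, ∑ j ∈ range (n + 1), (W x j : ℤ) = ∑ y ∈ Icc (0 : ℤ) n, (W x y : ℤ) := by
      intro x
      rw [sum_range_int (n + 1) (fun y => (W x y : ℤ)), e5]
    rw [sum_congr rfl fun (i : ℕ) _ => e6 (i : ℤ),
      sum_range_int (n + 1) (fun x => ∑ y ∈ Icc (0 : ℤ) n, (W x y : ℤ)), e5, sum_product]
  have hfin : 2 * ((∑ i ∈ range n, ∑ j ∈ range n, (if B i j then 1 else 0) : ℕ) : ℤ) ≤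
      2 + ((∑ i ∈ range (n + 1), ∑ j ∈ range (n + 1), W i j : ℕ) : ℤ) := by
    rw [e2, e4]
    linarith
  exact_mod_cast hfin

end Pool.Agent.H673.PR
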